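import Mathlib
import Pool.Agent.Run7.h235.EM.Main

/-!
# The Erdős matching conjecture with finitely many exceptions for each uniformity, and the extremal families

For every `k ≥ 3` there is `n0` such that for all `n ≥ n0` and all `s` with `k (s + 1) ≤ n` the largest families of
`k`-subsets of an `n`-set without `s + 1` pairwise disjoint members have the conjectured size, and the families of this size
are exactly the conjectured ones.  In particular for each `k` the conjecture fails for at most finitely many pairs `(n, s)`.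
-/

set_option autoImplicit false

namespace Pool.Agent.Results.MP_9079fe_co.LargeGroundSets

open Finset

/-- the conjectured value of `e_k(n,s)` -/
def val (n k s : ℕ) : ℕ := max (n.choose k - (n - s).choose k) ((k * (s + 1) - 1).choose k)

/-- `F` is a family of `k`-subsets of `[n]` without `s + 1` pairwise disjoint members -/
def Adm (n k s : ℕ) (F : Finset (Finset (Fin n))) : Prop :=
  (∀ A ∈ F, A.card = k) ∧
    ∀ M ⊆ F, (M : Set (Finset (Fin n))).PairwiseDisjoint id → M.card ≤ s

/-- the family of the `k`-sets which meet `S` -/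
def star {n : ℕ} (k : ℕ) (S : Finset (Fin n)) : Finset (Finset (Fin n)) :=
  (univ.powersetCard k).filter fun A => (A ∩ S).Nonempty

theorem card_star {n k : ℕ} (S : Finset (Fin n)) :
    (star k S).card = n.choose k - (n - S.card).choose k := by
  have h1 := Finset.card_filter_add_card_filter_not (s := (univ : Finset (Fin n)).powersetCard k)
    (fun A => (A ∩ S).Nonempty)
  have h2 : ((univ : Finset (Fin n)).powersetCard k).filter (fun A => ¬ (A ∩ S).Nonempty) =
      Sᶜ.powersetCard k := by
    ext A
    simp only [mem_filter, mem_powersetCard, subset_univ, true_and, not_nonempty_iff_eq_empty]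
    rw [← disjoint_iff_inter_eq_empty, subset_compl_iff_disjoint_right]
    tauto
  rw [h2, card_powersetCard, card_powersetCard, card_compl, card_univ, Fintype.card_fin] at h1
  unfold star
  omega

theorem adm_star {n k s : ℕ} (S : Finset (Fin n)) (hS : S.card ≤ s) : Adm n k s (star k S) := by
  refine ⟨fun A hA => (mem_powersetCard.1 (mem_filter.1 hA).1).2, fun M hM hd => ?_⟩
  rcases M.eq_empty_or_nonempty with h0 | ⟨A0, hA0⟩
  · rw [h0, card_empty]; exact Nat.zero_le _
  have hne : ∀ A ∈ M, ∃ v, v ∈ A ∩ S := fun A hA => (mem_filter.1 (hM hA)).2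
  have : Nonempty (Fin n) := ⟨(hne A0 hA0).choose⟩
  choose! f hf using hne
  refine le_trans (card_le_card_of_injOn f (fun A hA => (mem_inter.1 (hf A hA)).2) ?_) hS
  intro A hA B hB hAB
  by_contra hne
  have h1 := hd hA hB hne
  exact disjoint_left.1 h1 (mem_inter.1 (hf A hA)).1 (by
    have := (mem_inter.1 (hf B hB)).1
    rwa [← hAB] at this)

theorem adm_clique {n k s : ℕ} (hk : 1 ≤ k) (H : Finset (Fin n)) (hH : H.card ≤ k * (s + 1) - 1) :
    Adm n k s (H.powersetCard k) := by
  refine ⟨fun A hA => (mem_powersetCard.1 hA).2, fun M hM hd => ?_⟩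
  by_contra hcon
  push Not at hcon
  have h1 : (M.biUnion id).card = ∑ A ∈ M, A.card := card_biUnion fun A hA B hB hne => hd hA hB hne
  have h2 : ∑ A ∈ M, A.card = M.card * k := by
    rw [sum_const_nat fun A hA => (mem_powersetCard.1 (hM hA)).2]
  have h3 : M.biUnion id ⊆ H := by
    intro v hv
    obtain ⟨A, hA, hvA⟩ := mem_biUnion.1 hv
    exact (mem_powersetCard.1 (hM hA)).1 hvA
  have h4 := card_le_card h3
  have h5 : (s + 1) * k ≤ M.card * k := Nat.mul_le_mul_right k hcon
  have h6 : 1 ≤ k * (s + 1) := Nat.one_le_iff_ne_zero.2 (by positivity)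
  rw [Nat.mul_comm] at h5
  omega

theorem adm_iff {n k s : ℕ} (F : Finset (Finset (Fin n))) (hF : Adm n k s F) :
    Pool.Agent.W890.SF.Unif k F ∧ ¬ Pool.Agent.W890.SF.HasM F (s + 1) := by
  refine ⟨hF.1, ?_⟩
  rintro ⟨M, hM, hd, hc⟩
  have := hF.2 M hM (fun A hA B hB hne => hd A hA B hB hne)
  omega

/-- For every `k ≥ 3`: (1) there is `n0` such that for all `n ≥ n0` and all `s` with `k (s + 1) ≤ n` the largest size of a
family of `k`-subsets of `[n]` without `s + 1` pairwise disjoint members is
`max (C(n,k) - C(n-s,k)) (C(k(s+1)-1,k))`, and every such family of this size consists of all `k`-sets which meet a fixed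
set of `s` points or of all `k`-subsets of a fixed set of `k (s + 1) - 1` points; (2) the set of the pairs `(n, s)` with
`k (s + 1) ≤ n` for which the Erdős matching conjecture fails is finite. -/
theorem result : ∀ k : ℕ, 3 ≤ k →
    (∃ n0 : ℕ, ∀ n : ℕ, n0 ≤ n → ∀ s : ℕ, k * (s + 1) ≤ n →
      IsGreatest {m : ℕ | ∃ F : Finset (Finset (Fin n)), Adm n k s F ∧ F.card = m} (val n k s) ∧
      ∀ F : Finset (Finset (Fin n)), Adm n k s F → F.card = val n k s →
        (∃ S : Finset (Fin n), S.card = s ∧ F = star k S) ∨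
          ∃ H : Finset (Fin n), H.card = k * (s + 1) - 1 ∧ F = H.powersetCard k) ∧
    {p : ℕ × ℕ | k * (p.2 + 1) ≤ p.1 ∧
      ¬ IsGreatest {m : ℕ | ∃ F : Finset (Finset (Fin p.1)), Adm p.1 k p.2 F ∧ F.card = m}
        (val p.1 k p.2)}.Finite := by
  intro k hk
  obtain ⟨n1, h1⟩ := Pool.Agent.Q113.XK.xall k hk
  obtain ⟨n2, h2⟩ := Pool.Agent.Run7.h235.EM.str_all k hk
  have main : ∀ n : ℕ, max n1 n2 ≤ n → ∀ s : ℕ, k * (s + 1) ≤ n →
      IsGreatest {m : ℕ | ∃ F : Finset (Finset (Fin n)), Adm n k s F ∧ F.card = m} (val n k s) := by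
    intro n hn s hs
    have hsn : s ≤ n := by nlinarith
    constructor
    · rcases le_total (n.choose k - (n - s).choose k) ((k * (s + 1) - 1).choose k) with h | h
      · obtain ⟨H, hH⟩ : ∃ H : Finset (Fin n), H.card = k * (s + 1) - 1 := by
          obtain ⟨H, -, hH⟩ := exists_subset_card_eq (s := (univ : Finset (Fin n)))
            (n := k * (s + 1) - 1) (by rw [card_univ, Fintype.card_fin]; omega)
          exact ⟨H, hH⟩
        exact ⟨H.powersetCard k, adm_clique (by omega) H hH.le, by
          rw [card_powersetCard, hH]; unfold val; rw [max_eq_right h]⟩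
      · obtain ⟨S, hS⟩ : ∃ S : Finset (Fin n), S.card = s := by
          obtain ⟨S, -, hS⟩ := exists_subset_card_eq (s := (univ : Finset (Fin n)))
            (n := s) (by rw [card_univ, Fintype.card_fin]; omega)
          exact ⟨S, hS⟩
        exact ⟨star k S, adm_star S hS.le, by
          rw [card_star, hS]; unfold val; rw [max_eq_left h]⟩
    · rintro m ⟨F, hF, rfl⟩
      by_contra hcon
      push Not at hcon
      obtain ⟨hu, hm⟩ := adm_iff F hF
      exact hm (h1 n ((le_max_left _ _).trans hn) s hs F hu hcon)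
  refine ⟨⟨max n1 n2, fun n hn s hs => ⟨main n hn s hs, fun F hF hc => ?_⟩⟩, ?_⟩
  · obtain ⟨hu, hm⟩ := adm_iff F hF
    rcases h2 n ((le_max_right _ _).trans hn) s hs F hu hm (by rw [hc]; exact le_rfl) with
      ⟨S, hS, hcov⟩ | ⟨H, hH, hsub⟩
    · refine Or.inl ⟨S, hS, Finset.eq_of_subset_of_card_le ?_ ?_⟩
      · intro A hA
        refine mem_filter.2 ⟨mem_powersetCard.2 ⟨subset_univ _, hu A hA⟩, ?_⟩
        have := hcov A hA
        rwa [not_disjoint_iff_nonempty_inter] at this
      · rw [card_star, hS, hc]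
        exact le_max_left _ _
    · refine Or.inr ⟨H, hH, Finset.eq_of_subset_of_card_le ?_ ?_⟩
      · intro A hA
        exact mem_powersetCard.2 ⟨hsub A hA, hu A hA⟩
      · rw [card_powersetCard, hH, hc]
        exact le_max_right _ _
  · refine Set.Finite.subset ((Set.finite_lt_nat (max n1 n2)).prod (Set.finite_lt_nat (max n1 n2))) ?_
    rintro ⟨n, s⟩ ⟨hs, hno⟩
    have hn : n < max n1 n2 := by
      by_contra h
      push Not at h
      exact hno (main n h s hs)
    have hsn : s ≤ n := by
      have : k * (s + 1) ≤ n := hs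
      nlinarith
    exact ⟨hn, lt_of_le_of_lt hsn hn⟩

end Pool.Agent.Results.MP_9079fe_co.LargeGroundSets
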